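import Pool.Agent.W188.QS.Stm

/-! Project QS: the sandwich inequality. -/

set_option autoImplicit false

open MeasureTheory Set Filter Topology

namespace Pool.Agent.W369.QS

open Pool.Agent.W188.QS

theorem qs_sand (h1 : Pool.Agent.W188.QS.StPC) (h2 : Pool.Agent.W188.QS.StFub) :
    Pool.Agent.W188.QS.StSand := by
  intro μ ν hμ hν u v Δ r E hu huv hv3 hΔ hr hru hE
  set e : ℝ := Real.exp (-(r / Δ) ^ 2) with he
  have he0 : 0 < e := Real.exp_pos _
  have pc := fun t => h1 u v Δ r t hu huv hv3 hΔ hr hru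
  obtain ⟨iμ, jμ, kμ⟩ := h2 μ hμ u v Δ hu huv hΔ
  obtain ⟨iν, jν, kν⟩ := h2 ν hν u v Δ hu huv hΔ
  have hπ : 0 < √Real.pi * Δ := mul_pos (Real.sqrt_pos.2 Real.pi_pos) hΔ
  have fin : ∀ (κ : Measure ℝ), (∀ x : ℝ, κ (Iic x) < ⊤) → ∀ (s : Set ℝ) (b : ℝ), s ⊆ Iic b →
      κ s < ⊤ := fun κ hκ s b hs => (measure_mono hs).trans_lt (hκ b)
  have ind : ∀ (κ : Measure ℝ), (∀ x : ℝ, κ (Iic x) < ⊤) → ∀ (s : Set ℝ) (b c : ℝ), s ⊆ Iic b →
      MeasurableSet s → Integrable (s.indicator fun _ => c) κ := by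
    intro κ hκ s b c hs hms
    rw [integrable_indicator_iff hms]
    exact integrableOn_const (fin κ hκ s b hs).ne
  -- lower bound
  have A : (1 - e) * ν.real (Icc (u + r) (v - r)) ≤ ∫ t, PC u v Δ t ∂ν := by
    have g1 := ind ν hν (Icc (u + r) (v - r)) (v - r) (1 - e) (fun t ht => ht.2) measurableSet_Icc
    have g2 := integral_mono g1 iν (fun t => by
      by_cases ht : t ∈ Icc (u + r) (v - r)
      · rw [indicator_of_mem ht]
        exact (pc t).2.2.2.2.1 ht.1 ht.2
      · rw [indicator_of_notMem ht]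
        exact (pc t).1)
    rw [integral_indicator_const _ measurableSet_Icc, smul_eq_mul, mul_comm] at g2
    exact g2
  -- upper bound
  have B : ∫ t, PC u v Δ t ∂μ ≤
      μ.real (Icc (u - r) (v + r)) + e * μ.real (Ioo (u / 2) (3 * v / 2)) := by
    have g1 := ind μ hμ (Icc (u - r) (v + r)) (v + r) 1 (fun t ht => ht.2) measurableSet_Icc
    have g2 := ind μ hμ (Ioo (u / 2) (3 * v / 2)) (3 * v / 2) e (fun t ht => ht.2.le)
      measurableSet_Ioo
    have g3 := integral_mono iμ (g1.add g2) (fun t => by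
      simp only [Pi.add_apply]
      have n1 : 0 ≤ (Icc (u - r) (v + r)).indicator (fun _ => (1:ℝ)) t :=
        indicator_nonneg (fun _ _ => zero_le_one) t
      have n2 : 0 ≤ (Ioo (u / 2) (3 * v / 2)).indicator (fun _ => e) t :=
        indicator_nonneg (fun _ _ => he0.le) t
      by_cases ht : t ∈ Icc (u - r) (v + r)
      · rw [indicator_of_mem ht]
        have := (pc t).2.1
        linarith
      · have ht' : t ≤ u - r ∨ v + r ≤ t := by
          by_contra hcon
          push Not at hcon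
          exact ht ⟨hcon.1.le, hcon.2.le⟩
        have p1 := (pc t).2.2.2.2.2 ht'
        by_cases ht2 : t ∈ Ioo (u / 2) (3 * v / 2)
        · rw [indicator_of_mem ht2]
          linarith
        · have ht3 : t ≤ u / 2 ∨ 3 * v / 2 ≤ t := by
            by_contra hcon
            push Not at hcon
            exact ht2 hcon
          rcases ht3 with h | h
          · have p2 := (pc t).2.2.1 h
            linarith
          · have p2 := (pc t).2.2.2.1 h
            linarith)
    have g4 : ∫ t, ((Icc (u - r) (v + r)).indicator (fun _ => (1:ℝ)) +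
        (Ioo (u / 2) (3 * v / 2)).indicator (fun _ => e)) t ∂μ =
        μ.real (Icc (u - r) (v + r)) + e * μ.real (Ioo (u / 2) (3 * v / 2)) := by
      rw [integral_add' g1 g2, integral_indicator_const _ measurableSet_Icc,
        integral_indicator_const _ measurableSet_Ioo, smul_eq_mul, smul_eq_mul, mul_one,
        mul_comm e]
    rw [g4] at g3
    exact g3
  -- comparison
  have K : √Real.pi * Δ * ∫ t, PC u v Δ t ∂ν ≤ √Real.pi * Δ * ∫ t, PC u v Δ t ∂μ + (v - u) * E := by
    rw [← kν, ← kμ]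
    have g1 : ∫ τ in u..v, ((∫ t in Ioo (τ / 2) (3 * τ / 2), gg τ Δ t ∂μ) + E) =
        (∫ τ in u..v, (∫ t in Ioo (τ / 2) (3 * τ / 2), gg τ Δ t ∂μ)) + (v - u) * E := by
      rw [intervalIntegral.integral_add jμ intervalIntegrable_const,
        intervalIntegral.integral_const, smul_eq_mul]
    rw [← g1]
    refine intervalIntegral.integral_mono_on huv jν (jμ.add intervalIntegrable_const) ?_
    intro τ hτ
    have := hE τ hτ
    rw [abs_le] at this
    linarith [this.1]
  have K' : ∫ t, PC u v Δ t ∂ν ≤ ∫ t, PC u v Δ t ∂μ + (v - u) * E / (√Real.pi * Δ) := by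
    have e1 : ∫ t, PC u v Δ t ∂μ + (v - u) * E / (√Real.pi * Δ) =
        (√Real.pi * Δ * ∫ t, PC u v Δ t ∂μ + (v - u) * E) / (√Real.pi * Δ) := by
      field_simp
    rw [e1, le_div_iff₀ hπ, mul_comm]
    exact K
  linarith

end Pool.Agent.W369.QS
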