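import Pool.Agent.W188.QS.Stm

/-! Project QS: the Tauberian theorem for two measures with nearly the same Gaussian averages. -/

set_option autoImplicit false

open MeasureTheory Set Filter Topology

namespace Pool.Agent.W369.QS.Taub

open Pool.Agent.W188.QS

/-- the comparison function -/
noncomputable def LL (m T : ℝ) : ℝ := T * Real.log T ^ m

theorem LL_pos {m T : ℝ} (hT : 1 < T) : 0 < LL m T :=
  mul_pos (by linarith) (Real.rpow_pos_of_pos (Real.log_pos hT) _)

theorem tendsto_log_ratio {c : ℝ} (hc : 0 < c) :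
    Tendsto (fun T : ℝ => Real.log (c * T) / Real.log T) atTop (𝓝 1) := by
  have h1 : Tendsto (fun T : ℝ => Real.log c / Real.log T + 1) atTop (𝓝 (0 + 1)) :=
    (Real.tendsto_log_atTop.const_div_atTop _).add_const 1
  rw [zero_add] at h1
  refine h1.congr' ?_
  filter_upwards [eventually_gt_atTop 1] with T hT
  have h2 : 0 < Real.log T := Real.log_pos hT
  rw [Real.log_mul hc.ne' (by linarith), add_div, div_self h2.ne']

theorem tendsto_mul {c : ℝ} (hc : 0 < c) : Tendsto (fun T : ℝ => c * T) atTop atTop :=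
  tendsto_id.const_mul_atTop hc

theorem tendsto_rpow_ratio {c : ℝ} (hc : 0 < c) (p : ℝ) :
    Tendsto (fun T : ℝ => Real.log (c * T) ^ p / Real.log T ^ p) atTop (𝓝 1) := by
  have h1 := (tendsto_log_ratio hc).rpow_const (p := p) (Or.inl one_ne_zero)
  rw [Real.one_rpow] at h1
  refine h1.congr' ?_
  filter_upwards [eventually_gt_atTop 1, (tendsto_mul hc).eventually_gt_atTop 1] with T hT hT'
  rw [Real.div_rpow (Real.log_pos hT').le (Real.log_pos hT).le]

theorem tendsto_small {c : ℝ} (hc : 0 < c) {q m : ℝ} (hqm : q < m) :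
    Tendsto (fun T : ℝ => Real.log (c * T) ^ q / Real.log T ^ m) atTop (𝓝 0) := by
  have h1 : Tendsto (fun T : ℝ => Real.log T ^ (-(m - q))) atTop (𝓝 0) :=
    (tendsto_rpow_neg_atTop (by linarith : 0 < m - q)).comp Real.tendsto_log_atTop
  have h2 := (tendsto_rpow_ratio hc q).mul h1
  rw [one_mul] at h2
  refine h2.congr' ?_
  filter_upwards [eventually_gt_atTop 1] with T hT
  have h3 : 0 < Real.log T := Real.log_pos hT
  rw [neg_sub, Real.rpow_sub h3]
  have h4 := (Real.rpow_pos_of_pos h3 q).ne'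
  field_simp

theorem tendsto_LL {c : ℝ} (hc : 0 < c) (m : ℝ) :
    Tendsto (fun T : ℝ => LL m (c * T) / LL m T) atTop (𝓝 c) := by
  have h1 := (tendsto_rpow_ratio hc m).const_mul c
  rw [mul_one] at h1
  refine h1.congr' ?_
  filter_upwards [eventually_gt_atTop 1] with T hT
  unfold LL
  have hT0 : T ≠ 0 := by linarith
  field_simp

section Meas

variable {μ ν : Measure ℝ} {a m q : ℝ}

theorem fin_of {μ : Measure ℝ} (hμ : ∀ x : ℝ, μ (Iic x) < ⊤) {s : Set ℝ} {b : ℝ}
    (hs : s ⊆ Iic b) : μ s ≠ ⊤ := ((measure_mono hs).trans_lt (hμ b)).ne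

theorem real_mono {μ : Measure ℝ} (hμ : ∀ x : ℝ, μ (Iic x) < ⊤) {s t : Set ℝ} {b : ℝ}
    (hst : s ⊆ t) (ht : t ⊆ Iic b) : μ.real s ≤ μ.real t :=
  measureReal_mono hst (fin_of hμ ht)

theorem real_Ioc {μ : Measure ℝ} (hμ : ∀ x : ℝ, μ (Iic x) < ⊤) {x y : ℝ} (hx : 0 ≤ x)
    (hxy : x ≤ y) : μ.real (Ioc x y) = μ.real (Ioc 0 y) - μ.real (Ioc 0 x) := by
  have h1 : Ioc 0 x ∪ Ioc x y = Ioc 0 y := Ioc_union_Ioc_eq_Ioc hx hxy
  have h2 := measureReal_union (μ := μ) (s₁ := Ioc 0 x) (s₂ := Ioc x y)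
    (Ioc_disjoint_Ioc_of_le le_rfl) measurableSet_Ioc
    (fin_of hμ (b := x) fun t ht => ht.2) (fin_of hμ (b := y) fun t ht => ht.2)
  rw [h1] at h2
  linarith

theorem lim_Ioc0 (hlim : Tendsto (fun T => μ.real (Ioc 0 T) / LL m T) atTop (𝓝 a))
    {x : ℝ} (hx : 0 < x) :
    Tendsto (fun T => μ.real (Ioc 0 (x * T)) / LL m T) atTop (𝓝 (a * x)) := by
  have h1 := (hlim.comp (tendsto_mul hx)).mul (tendsto_LL hx m)
  refine h1.congr' ?_
  filter_upwards [eventually_gt_atTop 1, (tendsto_mul hx).eventually_gt_atTop 1] with T hT hT'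
  have h2 := (LL_pos (m := m) hT').ne'
  have h3 := (LL_pos (m := m) hT).ne'
  simp only [Function.comp_apply]
  field_simp

theorem lim_Ioc (hμ : ∀ x : ℝ, μ (Iic x) < ⊤)
    (hlim : Tendsto (fun T => μ.real (Ioc 0 T) / LL m T) atTop (𝓝 a))
    {x y : ℝ} (hx : 0 < x) (hxy : x ≤ y) :
    Tendsto (fun T => μ.real (Ioc (x * T) (y * T)) / LL m T) atTop (𝓝 ((y - x) * a)) := by
  have h1 := (lim_Ioc0 hlim (hx.trans_le hxy)).sub (lim_Ioc0 hlim hx)
  rw [← mul_sub, mul_comm] at h1
  refine h1.congr' ?_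
  filter_upwards [eventually_gt_atTop 1] with T hT
  rw [real_Ioc hμ (by positivity) (mul_le_mul_of_nonneg_right hxy (by linarith)), sub_div]

theorem a_nonneg (hlim : Tendsto (fun T => μ.real (Ioc 0 T) / LL m T) atTop (𝓝 a)) : 0 ≤ a := by
  refine ge_of_tendsto hlim ?_
  filter_upwards [eventually_gt_atTop 1] with T hT
  exact div_nonneg measureReal_nonneg (LL_pos hT).le

theorem up0 (hμ : ∀ x : ℝ, μ (Iic x) < ⊤)
    (hlim : Tendsto (fun T => μ.real (Ioc 0 T) / LL m T) atTop (𝓝 a))
    {x y η : ℝ} (hx : 0 < x) (hxy : x ≤ y) (hη : 0 < η) :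
    ∀ᶠ T in atTop, μ.real (Icc (x * T) (y * T)) ≤ ((y - x) * a + η) * LL m T := by
  have ha := a_nonneg hlim
  set δ : ℝ := min (x / 2) (η / (2 * (a + 1))) with hδ
  have hδ0 : 0 < δ := by positivity
  have hδx : δ ≤ x / 2 := min_le_left _ _
  have hδη : δ * a < η := by
    have h1 : δ * (2 * (a + 1)) ≤ η := by
      have := min_le_right (x / 2) (η / (2 * (a + 1)))
      rw [← hδ, le_div_iff₀ (by positivity)] at this
      exact this
    nlinarith
  have h1 := lim_Ioc hμ hlim (x := x - δ) (y := y) (by linarith) (by linarith)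
  have h2 : (y - (x - δ)) * a < (y - x) * a + η := by nlinarith
  filter_upwards [h1.eventually (gt_mem_nhds h2), eventually_gt_atTop 1] with T h3 hT
  rw [div_lt_iff₀ (LL_pos hT)] at h3
  refine (real_mono hμ (b := y * T) ?_ fun t ht => ht.2).trans h3.le
  intro t ht
  refine ⟨?_, ht.2⟩
  have : (x - δ) * T < x * T := mul_lt_mul_of_pos_right (by linarith) (by linarith)
  exact this.trans_le ht.1

theorem lo0 (hμ : ∀ x : ℝ, μ (Iic x) < ⊤)
    (hlim : Tendsto (fun T => μ.real (Ioc 0 T) / LL m T) atTop (𝓝 a))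
    {x y η : ℝ} (hx : 0 < x) (hxy : x ≤ y) (hη : 0 < η) :
    ∀ᶠ T in atTop, ((y - x) * a - η) * LL m T ≤ μ.real (Icc (x * T) (y * T)) := by
  have h1 := lim_Ioc hμ hlim hx hxy
  have h2 : (y - x) * a - η < (y - x) * a := by linarith
  filter_upwards [h1.eventually (lt_mem_nhds h2), eventually_gt_atTop 1] with T h3 hT
  rw [lt_div_iff₀ (LL_pos hT)] at h3
  exact h3.le.trans (real_mono hμ (b := y * T) Ioc_subset_Icc_self fun t ht => ht.2)

/-- the window inequality -/
theorem window (hS : StSand) (hμ : ∀ x : ℝ, μ (Iic x) < ⊤) (hν : ∀ x : ℝ, ν (Iic x) < ⊤)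
    (hqm : q < m) (hN : Near μ ν q) {α β ρ η : ℝ} (hα : 0 < α) (hαβ : α ≤ β) (hβ : β ≤ 3 * α)
    (hρ : 0 < ρ) (hρα : ρ ≤ α / 4) (hη : 0 < η) :
    ∀ᶠ T in atTop, (1 - η) * ν.real (Icc ((α + ρ) * T) ((β - ρ) * T)) ≤
      μ.real (Icc ((α - ρ) * T) ((β + ρ) * T)) + η * μ.real (Ioo (α * T / 2) (3 * (β * T) / 2)) +
        η * LL m T := by
  obtain ⟨B₀, hB⟩ := hN
  obtain ⟨C, T₀, hC⟩ := hB (max B₀ 1) (le_max_left _ _)
  set B : ℝ := max B₀ 1 with hBdef
  have hB1 : 1 ≤ B := le_max_right _ _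
  have hB0 : 0 < B := by linarith
  have hπ : 0 < √Real.pi := Real.sqrt_pos.2 Real.pi_pos
  have h3α : 0 < 3 * α := by positivity
  -- eventual facts
  have f1 : ∀ᶠ T in atTop, T₀ ≤ α * T := (tendsto_mul hα).eventually_ge_atTop T₀
  have f2 : ∀ᶠ T in atTop, Real.exp (9 * Real.log 3 + 1) ≤ α * T :=
    (tendsto_mul hα).eventually_ge_atTop _
  have f4 : ∀ᶠ T in atTop, Real.exp (-((ρ * B / α) ^ 2 * Real.log (3 * α * T))) ≤ η := by
    have h1 : Tendsto (fun T : ℝ => (ρ * B / α) ^ 2 * Real.log (3 * α * T)) atTop atTop :=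
      (Real.tendsto_log_atTop.comp (tendsto_mul h3α)).const_mul_atTop (by positivity)
    have h2 := Real.tendsto_exp_neg_atTop_nhds_zero.comp h1
    filter_upwards [h2.eventually (gt_mem_nhds hη)] with T hT
    exact hT.le
  have f5 : ∀ᶠ T in atTop, (β - α) * |C| / √Real.pi *
      (Real.log (α * T) ^ q / Real.log T ^ m + Real.log (3 * α * T) ^ q / Real.log T ^ m) < η := by
    have h1 := ((tendsto_small hα hqm).add (tendsto_small h3α hqm)).const_mul
      ((β - α) * |C| / √Real.pi)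
    rw [add_zero, mul_zero] at h1
    exact h1.eventually (gt_mem_nhds hη)
  filter_upwards [f1, f2, f4, f5, eventually_gt_atTop 1] with T g1 g2 g4 g5 gT
  have hT0 : 0 < T := by linarith
  have hl3 : 0 < Real.log 3 := Real.log_pos (by norm_num)
  set u : ℝ := α * T with hu
  have hu0 : 0 < u := by positivity
  have hlu : 9 * Real.log 3 + 1 ≤ Real.log u := by
    rw [Real.le_log_iff_exp_le hu0]
    exact g2
  have h3u : 3 * α * T = 3 * u := by rw [hu]; ring
  rw [h3u] at g4 g5
  have hl3u : Real.log (3 * u) = Real.log 3 + Real.log u := Real.log_mul (by norm_num) hu0.ne'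
  have hl3u0 : 0 < Real.log (3 * u) := by rw [hl3u]; linarith
  have hs3 : 0 < √(Real.log (3 * u)) := Real.sqrt_pos.2 hl3u0
  set Δ : ℝ := u / (B * √(Real.log (3 * u))) with hΔ
  have hΔ0 : 0 < Δ := by positivity
  have aux1 : ∀ w : ℝ, 0 < w → B * (u / (B * w)) * w = u := fun w hw => by field_simp
  have hBΔ : B * Δ * √(Real.log (3 * u)) = u := aux1 _ hs3
  have huv : u ≤ β * T := mul_le_mul_of_nonneg_right hαβ hT0.le
  have hv3 : β * T ≤ 3 * u := by
    rw [hu, ← mul_assoc]
    exact mul_le_mul_of_nonneg_right hβ hT0.le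
  set E : ℝ := |C| * Δ * (Real.log u ^ q + Real.log (3 * u) ^ q) with hE
  have key := hS μ ν hμ hν u (β * T) Δ (ρ * T) E hu0 huv hv3 hΔ0 (by positivity)
    (by rw [hu]; nlinarith) (by
      intro τ hτ
      have hτ0 : 0 < τ := hu0.trans_le hτ.1
      have hτ3 : τ ≤ 3 * u := hτ.2.trans hv3
      have hlτ1 : Real.log u ≤ Real.log τ := Real.log_le_log hu0 hτ.1
      have hlτ2 : Real.log τ ≤ Real.log (3 * u) := Real.log_le_log hτ0 hτ3
      have hlτ0 : 0 < Real.log τ := by linarith
      have a1 : τ ≤ 4 * B * Δ * √(Real.log τ) := by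
        have b1 : 3 * √(Real.log (3 * u)) ≤ 4 * √(Real.log τ) := by
          have c1 : 3 * √(Real.log (3 * u)) = √(9 * Real.log (3 * u)) := by
            rw [Real.sqrt_mul (by norm_num : (0:ℝ) ≤ 9)]
            congr 1
            rw [show (9:ℝ) = 3 ^ 2 by norm_num, Real.sqrt_sq (by norm_num)]
          have c2 : 4 * √(Real.log τ) = √(16 * Real.log τ) := by
            rw [Real.sqrt_mul (by norm_num : (0:ℝ) ≤ 16)]
            congr 1
            rw [show (16:ℝ) = 4 ^ 2 by norm_num, Real.sqrt_sq (by norm_num)]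
          rw [c1, c2]
          apply Real.sqrt_le_sqrt
          rw [hl3u]
          linarith
        calc τ ≤ 3 * u := hτ3
          _ = B * Δ * (3 * √(Real.log (3 * u))) := by linear_combination (-3) * hBΔ
          _ ≤ B * Δ * (4 * √(Real.log τ)) := mul_le_mul_of_nonneg_left b1 (by positivity)
          _ = 4 * B * Δ * √(Real.log τ) := by ring
      have a2 : B * Δ * √(Real.log τ) ≤ τ := by
        calc B * Δ * √(Real.log τ) ≤ B * Δ * √(Real.log (3 * u)) :=
              mul_le_mul_of_nonneg_left (Real.sqrt_le_sqrt hlτ2) (by positivity)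
          _ = u := hBΔ
          _ ≤ τ := hτ.1
      have a3 := hC τ Δ (g1.trans hτ.1) hΔ0 a1 a2
      refine a3.trans ?_
      have a4 : Real.log τ ^ q ≤ Real.log u ^ q + Real.log (3 * u) ^ q := by
        have p1 : 0 ≤ Real.log u ^ q := Real.rpow_nonneg (by linarith) _
        have p2 : 0 ≤ Real.log (3 * u) ^ q := Real.rpow_nonneg hl3u0.le _
        rcases le_total 0 q with hq | hq
        · have := Real.rpow_le_rpow hlτ0.le hlτ2 hq
          linarith
        · have := Real.rpow_le_rpow_of_nonpos (by linarith : 0 < Real.log u) hlτ1 hq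
          linarith
      rw [hE]
      calc C * Δ * Real.log τ ^ q ≤ |C| * Δ * Real.log τ ^ q :=
            mul_le_mul_of_nonneg_right (mul_le_mul_of_nonneg_right (le_abs_self C) hΔ0.le)
              (Real.rpow_nonneg hlτ0.le _)
        _ ≤ _ := mul_le_mul_of_nonneg_left a4 (by positivity))
  have hr : (ρ * T / Δ) ^ 2 = (ρ * B / α) ^ 2 * Real.log (3 * u) := by
    have aux2 : ∀ w : ℝ, 0 < w → ρ * T / (α * T / (B * w)) = ρ * B / α * w :=
      fun w hw => by field_simp
    have h1 : ρ * T / Δ = ρ * B / α * √(Real.log (3 * u)) := aux2 _ hs3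
    rw [h1, mul_pow, Real.sq_sqrt hl3u0.le]
  have he : Real.exp (-(ρ * T / Δ) ^ 2) ≤ η := by
    rw [hr]
    exact g4
  have hlast : (β * T - u) * E / (√Real.pi * Δ) ≤ η * LL m T := by
    have hlT : 0 < Real.log T ^ m := Real.rpow_pos_of_pos (Real.log_pos gT) _
    have h1 : (β * T - u) * E / (√Real.pi * Δ) = T * Real.log T ^ m * ((β - α) * |C| / √Real.pi *
      (Real.log u ^ q / Real.log T ^ m + Real.log (3 * u) ^ q / Real.log T ^ m)) := by
      have aux3 : ∀ (x y w : ℝ), (β * T - α * T) * (|C| * Δ * (x + y)) / (√Real.pi * Δ) =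
          T * Real.log T ^ m * ((β - α) * |C| / √Real.pi *
            (x / Real.log T ^ m + y / Real.log T ^ m)) := by
        intro x y w
        generalize Real.log T ^ m = z at hlT
        field_simp
      exact aux3 _ _ 0
    rw [h1, mul_comm η]
    exact mul_le_mul_of_nonneg_left g5.le (LL_pos gT).le
  have e1 : u + ρ * T = (α + ρ) * T := by rw [hu]; ring
  have e2 : β * T - ρ * T = (β - ρ) * T := by ring
  have e3 : u - ρ * T = (α - ρ) * T := by rw [hu]; ring
  have e4 : β * T + ρ * T = (β + ρ) * T := by ring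
  rw [e1, e2, e3, e4] at key
  have n1 : 0 ≤ ν.real (Icc ((α + ρ) * T) ((β - ρ) * T)) := measureReal_nonneg
  have n2 : 0 ≤ μ.real (Ioo (u / 2) (3 * (β * T) / 2)) := measureReal_nonneg
  have k1 := mul_le_mul_of_nonneg_right he n1
  have k2 := mul_le_mul_of_nonneg_right he n2
  linarith

/-- upper bounds for the second measure -/
theorem upper (hS : StSand) (hμ : ∀ x : ℝ, μ (Iic x) < ⊤) (hν : ∀ x : ℝ, ν (Iic x) < ⊤)
    (hqm : q < m) (hN : Near μ ν q)
    (hlim : Tendsto (fun T => μ.real (Ioc 0 T) / LL m T) atTop (𝓝 a))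
    {x y η : ℝ} (hx : 0 < x) (hxy : x ≤ y) (hy : y < 3 * x) (hη : 0 < η) :
    ∀ᶠ T in atTop, ν.real (Icc (x * T) (y * T)) ≤ ((y - x) * a + η) * LL m T := by
  have ha := a_nonneg hlim
  set K : ℝ := (3 * y - x / 4) * a + 1 with hK
  have hcont : ContinuousAt (fun s : ℝ => ((y - x + 4 * s) * a + s + s * K + s) / (1 - s)) 0 := by
    refine ContinuousAt.div (by fun_prop) (by fun_prop) (by norm_num)
  have hval : ((y - x + 4 * 0) * a + 0 + 0 * K + 0) / (1 - 0) < (y - x) * a + η := by
    simp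
    exact hη
  have hev : ∀ᶠ s : ℝ in 𝓝[>] 0, ((y - x + 4 * s) * a + s + s * K + s) / (1 - s) <
      (y - x) * a + η :=
    nhdsWithin_le_nhds (hcont.eventually (gt_mem_nhds hval))
  have hsm : ∀ c : ℝ, 0 < c → ∀ᶠ s : ℝ in 𝓝[>] 0, s < c := fun c hc =>
    nhdsWithin_le_nhds (gt_mem_nhds hc)
  obtain ⟨s, ⟨⟨⟨s1, s2⟩, s3⟩, s4⟩, s0⟩ := ((((hev.and (hsm (1/2) (by norm_num))).and
    (hsm (x / 5) (by positivity))).and (hsm ((3 * x - y) / 4) (by linarith))).and
    self_mem_nhdsWithin).exists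
  have s0' : 0 < s := s0
  have w := window hS hμ hν hqm hN (α := x - s) (β := y + s) (ρ := s) (η := s) (by linarith)
    (by linarith) (by linarith) s0' (by linarith) s0'
  have u1 := up0 hμ hlim (x := x - 2 * s) (y := y + 2 * s) (η := s) (by linarith) (by linarith) s0'
  have u2 := up0 hμ hlim (x := x / 4) (y := 3 * y) (η := 1) (by linarith) (by linarith) one_pos
  filter_upwards [w, u1, u2, eventually_gt_atTop 1] with T w1 w2 w3 hT
  have hT0 : 0 < T := by linarith
  have hL := LL_pos (m := m) hT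
  have e1 : x - s + s = x := by ring
  have e2 : y + s - s = y := by ring
  have e3 : x - s - s = x - 2 * s := by ring
  have e4 : y + s + s = y + 2 * s := by ring
  rw [e1, e2, e3, e4] at w1
  have w4 : μ.real (Ioo ((x - s) * T / 2) (3 * ((y + s) * T) / 2)) ≤ K * LL m T := by
    refine (real_mono hμ (b := 3 * y * T) ?_ fun t ht => ht.2).trans w3
    intro t ht
    constructor
    · have : x / 4 * T ≤ (x - s) * T / 2 := by nlinarith
      exact this.trans ht.1.le
    · have : 3 * ((y + s) * T) / 2 ≤ 3 * y * T := by nlinarith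
      exact ht.2.le.trans this
  have w5 : (1 - s) * ν.real (Icc (x * T) (y * T)) ≤
      ((y - x + 4 * s) * a + s + s * K + s) * LL m T := by
    have k1 := mul_le_mul_of_nonneg_left w4 s0'.le
    have e5 : (y + 2 * s - (x - 2 * s)) * a = (y - x + 4 * s) * a := by ring
    rw [e5] at w2
    linarith
  have hs1 : 0 < 1 - s := by linarith
  have w6 : ν.real (Icc (x * T) (y * T)) ≤
      ((y - x + 4 * s) * a + s + s * K + s) / (1 - s) * LL m T := by
    rw [div_mul_eq_mul_div, le_div_iff₀ hs1, mul_comm]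
    exact w5
  exact w6.trans (mul_le_mul_of_nonneg_right s1.le hL.le)

end Meas

theorem near_symm {μ ν : Measure ℝ} {q : ℝ} (h : Near μ ν q) : Near ν μ q := by
  obtain ⟨B₀, h⟩ := h
  refine ⟨B₀, fun B hB => ?_⟩
  obtain ⟨C, T₀, h⟩ := h B hB
  refine ⟨C, T₀, fun T Δ h1 h2 h3 h4 => ?_⟩
  rw [abs_sub_comm]
  exact h T Δ h1 h2 h3 h4

theorem qs_taub (h1 : Pool.Agent.W188.QS.StDyad) (h2 : Pool.Agent.W188.QS.StSand) :
    Pool.Agent.W188.QS.StTaub := by
  intro a m q hm hqm μ ν hμ hν hN hlim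
  have hlim' : Tendsto (fun T => μ.real (Ioc 0 T) / LL m T) atTop (𝓝 a) := hlim
  have ha := a_nonneg hlim'
  refine h1 a m hm (fun T => ν.real (Ioc 0 T)) ?_ (fun x => measureReal_nonneg) ?_
  · intro x y hxy
    exact real_mono hν (b := y) (Ioc_subset_Ioc_right hxy) fun t ht => ht.2
  have hmain : Tendsto (fun T => ν.real (Ioc (T / 2) T) / LL m T) atTop (𝓝 (a / 2)) := by
    rw [tendsto_order]
    constructor
    · intro b hb
      -- lower bound
      have k1 := upper h2 hμ hν hqm hN hlim' (x := 1 / 4) (y := 7 / 10) (η := 1) (by norm_num)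
        (by norm_num) (by norm_num) one_pos
      have k2 := upper h2 hμ hν hqm hN hlim' (x := 6 / 10) (y := 3 / 2) (η := 1) (by norm_num)
        (by norm_num) (by norm_num) one_pos
      set K : ℝ := ((7 / 10 - 1 / 4) * a + 1) + ((3 / 2 - 6 / 10) * a + 1) with hK
      have hcont : ContinuousAt (fun s : ℝ => (1 - s) * ((1 / 2 - 5 * s) * a - s) - s * K - s)
          0 := by fun_prop
      have hval : b < (1 - 0) * ((1 / 2 - 5 * 0) * a - 0) - 0 * K - 0 := by
        simp
        linarith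
      have hev : ∀ᶠ s : ℝ in 𝓝[>] 0, b < (1 - s) * ((1 / 2 - 5 * s) * a - s) - s * K - s :=
        nhdsWithin_le_nhds (hcont.eventually (lt_mem_nhds hval))
      have hsm : ∀ᶠ s : ℝ in 𝓝[>] 0, s < 1 / 20 := nhdsWithin_le_nhds (gt_mem_nhds (by norm_num))
      obtain ⟨s, ⟨s1, s2⟩, s0⟩ := ((hev.and hsm).and self_mem_nhdsWithin).exists
      have s0' : 0 < s := s0
      have w := window h2 hν hμ hqm (near_symm hN) (α := 1 / 2 + 2 * s) (β := 1 - s) (ρ := s)
        (η := s) (by linarith) (by linarith) (by linarith) s0' (by linarith) s0'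
      have l := lo0 hμ hlim' (x := 1 / 2 + 3 * s) (y := 1 - 2 * s) (η := s) (by linarith)
        (by linarith) s0'
      filter_upwards [k1, k2, w, l, eventually_gt_atTop 1] with T g1 g2 g3 g4 hT
      have hT0 : 0 < T := by linarith
      have hL := LL_pos (m := m) hT
      rw [lt_div_iff₀ hL]
      have e1 : 1 / 2 + 2 * s + s = 1 / 2 + 3 * s := by ring
      have e2 : 1 - s - s = 1 - 2 * s := by ring
      have e3 : 1 / 2 + 2 * s - s = 1 / 2 + s := by ring
      have e4 : 1 - s + s = 1 := by ring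
      rw [e1, e2, e3, e4, one_mul] at g3
      have c1 : ν.real (Icc ((1 / 2 + s) * T) T) ≤ ν.real (Ioc (T / 2) T) := by
        refine real_mono hν (b := T) ?_ fun t ht => ht.2
        intro t ht
        refine ⟨?_, ht.2⟩
        have : T / 2 < (1 / 2 + s) * T := by nlinarith
        exact this.trans_le ht.1
      have c2 : ν.real (Ioo ((1 / 2 + 2 * s) * T / 2) (3 * ((1 - s) * T) / 2)) ≤ K * LL m T := by
        have d1 : ν.real (Ioo ((1 / 2 + 2 * s) * T / 2) (3 * ((1 - s) * T) / 2)) ≤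
            ν.real (Icc (1 / 4 * T) (7 / 10 * T) ∪ Icc (6 / 10 * T) (3 / 2 * T)) := by
          refine real_mono hν (b := 3 / 2 * T) ?_ ?_
          · intro t ht
            have q1 : 1 / 4 * T ≤ (1 / 2 + 2 * s) * T / 2 := by nlinarith
            have q2 : 3 * ((1 - s) * T) / 2 ≤ 3 / 2 * T := by nlinarith
            rcases le_total t (7 / 10 * T) with h | h
            · left
              exact ⟨q1.trans ht.1.le, h⟩
            · right
              refine ⟨?_, ht.2.le.trans q2⟩
              have : 6 / 10 * T ≤ 7 / 10 * T := by nlinarith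
              exact this.trans h
          · rintro t (ht | ht)
            · have : 7 / 10 * T ≤ 3 / 2 * T := by nlinarith
              exact ht.2.trans this
            · exact ht.2
        refine d1.trans ((measureReal_union_le _ _).trans ?_)
        rw [hK, add_mul]
        exact add_le_add g1 g2
      have hs1 : 0 < 1 - s := by linarith
      have e5 : (1 - 2 * s - (1 / 2 + 3 * s)) * a = (1 / 2 - 5 * s) * a := by ring
      rw [e5] at g4
      have g5 := mul_le_mul_of_nonneg_left g4 hs1.le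
      have g6 := mul_le_mul_of_nonneg_left c2 s0'.le
      have g7 := mul_lt_mul_of_pos_right s1 hL
      linarith
    · intro b hb
      have k := upper h2 hμ hν hqm hN hlim' (x := 1 / 2) (y := 1) (η := (b - a / 2) / 2)
        (by norm_num) (by norm_num) (by norm_num) (by linarith)
      filter_upwards [k, eventually_gt_atTop 1] with T g1 hT
      have hL := LL_pos (m := m) hT
      rw [div_lt_iff₀ hL]
      have c1 : ν.real (Ioc (T / 2) T) ≤ ν.real (Icc (1 / 2 * T) (1 * T)) := by
        refine real_mono hν (b := 1 * T) ?_ fun t ht => ht.2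
        intro t ht
        rw [one_mul]
        refine ⟨?_, ht.2⟩
        have := ht.1
        linarith
      refine (c1.trans g1).trans_lt (mul_lt_mul_of_pos_right ?_ hL)
      linarith
  refine hmain.congr' ?_
  filter_upwards [eventually_gt_atTop 1] with T hT
  rw [real_Ioc hν (by linarith) (by linarith)]
  rfl

end Pool.Agent.W369.QS.Taub
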